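import Pool.Agent.H28.PL.Defs

/-!
Row HSS of the board plp_modules: the series of one factor.
-/

set_option autoImplicit false

open Finset

namespace Pool.Agent.H33.PL

open Pool.Agent.H28.PL

theorem ca_zero (τ : Bool) : ca τ 0 = 1 := by
  cases τ <;> simp [ca]

theorem hs_mul (τ : Bool) {d : ℕ} (hd : 0 < d) (k : ℕ) :
    hs τ d (d * k) = ca τ k * 4 ^ (d * k - k) := by
  unfold hs
  rw [if_pos (dvd_mul_right d k), Nat.mul_div_cancel_left k hd]

theorem hs_out (τ : Bool) (d j : ℕ) (h : j ∉ Set.range fun k : ℕ => d * k) : hs τ d j = 0 := by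
  unfold hs
  rw [if_neg]
  rintro ⟨k, rfl⟩
  exact h ⟨k, rfl⟩

theorem pow_split (d k : ℕ) (hd : 0 < d) : (4 : ℝ) ^ (d * k) = 4 ^ (d * k - k) * 4 ^ k := by
  rw [← pow_add]
  congr 1
  have : 1 * k ≤ d * k := Nat.mul_le_mul_right k hd
  omega

theorem pf_HSS (hc : T_CAT) (hb : T_CAB) : T_HSS := by
  intro τ d t hd ht
  have hinj : Function.Injective fun k : ℕ => d * k := fun a b h =>
    Nat.eq_of_mul_eq_mul_left hd h
  have htd : |t ^ d| ≤ 1 / 2 := by
    rw [abs_pow]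
    calc |t| ^ d ≤ |t| ^ 1 := pow_le_pow_of_le_one (abs_nonneg _) (by linarith) hd
      _ ≤ 1 / 2 := by rw [pow_one]; exact ht
  obtain ⟨x, hx⟩ : ∃ x : ℝ, x = (1 / 2) ^ d := ⟨_, rfl⟩
  have hx0 : 0 < x := by rw [hx]; positivity
  have hx1 : x ≤ 1 / 2 := by
    rw [hx]
    calc (1 / 2 : ℝ) ^ d ≤ (1 / 2) ^ 1 := pow_le_pow_of_le_one (by norm_num) (by norm_num) hd
      _ = 1 / 2 := pow_one _
  -- the terms of the norm
  have hterm : ∀ k : ℕ, |(hs τ d (d * k) : ℝ)| / 8 ^ (d * k) =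
      |(ca τ k : ℝ)| / 4 ^ k * x ^ k := by
    intro k
    rw [hs_mul τ hd k]
    have h1 : (8 : ℝ) ^ (d * k) = 4 ^ (d * k - k) * 4 ^ k * 2 ^ (d * k) := by
      rw [← pow_split d k hd, ← mul_pow]
      norm_num
    have h2 : x ^ k = 1 / 2 ^ (d * k) := by
      rw [hx, ← pow_mul, one_div_pow]
    rw [h1, h2]
    push_cast
    rw [abs_mul, abs_of_pos (show (0 : ℝ) < 4 ^ (d * k - k) by positivity)]
    field_simp
  have hle : ∀ k : ℕ, |(hs τ d (d * k) : ℝ)| / 8 ^ (d * k) ≤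
      1 / 2 * x ^ k + (if k = 0 then 1 / 2 else 0) := by
    intro k
    rw [hterm k]
    rcases Nat.eq_zero_or_pos k with rfl | hk
    · rw [ca_zero]
      norm_num
    · rw [if_neg (by omega), add_zero]
      refine mul_le_mul_of_nonneg_right ?_ (by positivity)
      have h1 := hb τ k hk
      have h2 : 2 * |(ca τ k : ℝ)| ≤ 4 ^ k := by exact_mod_cast h1
      rw [div_le_iff₀ (by positivity)]
      linarith
  have hbs : HasSum (fun k : ℕ => 1 / 2 * x ^ k + (if k = 0 then 1 / 2 else 0))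
      (1 / 2 * (1 - x)⁻¹ + 1 / 2) :=
    ((hasSum_geometric_of_lt_one hx0.le (by linarith)).mul_left (1 / 2)).add
      (hasSum_ite_eq 0 (1 / 2 : ℝ))
  have hsum : Summable fun k : ℕ => |(hs τ d (d * k) : ℝ)| / 8 ^ (d * k) :=
    Summable.of_nonneg_of_le (fun k => by positivity) hle hbs.summable
  have hout : ∀ j, j ∉ (Set.range fun k : ℕ => d * k) → |(hs τ d j : ℝ)| / 8 ^ j = 0 := by
    intro j hj
    rw [hs_out τ d j hj]
    simp
  refine ⟨?_, ?_, ?_, ?_⟩
  · have h := hs_mul τ hd 0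
    rw [mul_zero, ca_zero] at h
    rw [h]
    norm_num
  · have h1 := hc τ (t ^ d) htd
    rw [← hinj.hasSum_iff (fun j hj => by rw [hs_out τ d j hj]; simp)]
    refine h1.congr_fun ?_
    intro k
    show (hs τ d (d * k) : ℝ) * (t / 4) ^ (d * k) = (ca τ k : ℝ) * (t ^ d / 4) ^ k
    rw [hs_mul τ hd k, div_pow, div_pow, ← pow_mul, pow_split d k hd]
    push_cast
    field_simp
  · rw [← hinj.summable_iff hout]
    exact hsum
  · have h1 : ∑' k : ℕ, |(hs τ d (d * k) : ℝ)| / 8 ^ (d * k) =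
        ∑' j : ℕ, |(hs τ d j : ℝ)| / 8 ^ j := by
      refine hinj.tsum_eq (f := fun j : ℕ => |(hs τ d j : ℝ)| / 8 ^ j) ?_
      intro j hj
      by_contra h
      exact hj (hout j h)
    rw [← h1]
    refine (hsum.tsum_le_tsum hle hbs.summable).trans ?_
    rw [hbs.tsum_eq, ← hx]
    have h2 : (1 - x)⁻¹ ≤ 1 + 2 * x := by
      rw [inv_le_iff_one_le_mul₀ (by linarith)]
      nlinarith
    linarith

end Pool.Agent.H33.PL
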